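import Pool.Agent.Helper76.CQ.Defs
import Pool.Agent.Helper76.CY.Core

/-!
# Project CQ, piece 2: the tangent vector of an arc; values of polynomials on an arc
-/

namespace Pool.Agent.Helper26.CQ

open MvPolynomial Pool.Agent.Helper76.CY Pool.Agent.Helper76.CQ

theorem ArcM.tan {K O : Type*} [Field K] [CommRing O] [IsDomain O] [Algebra K O] {t : O}
    (ht0 : t ≠ 0) {m : Ideal O} (htm : t ∈ m) (h1 : (1 : O) ∉ m) {S : Subring O} {D : Ten K}
    (hD : Window D) {τ : Idx → K} {a : Idx → O} (ha : ArcM t m S D τ a) : τ ∈ tanSp D := by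
  intro i j k
  have hJt : Ideal.span {t} * m ≤ Ideal.span {t} := Ideal.mul_le_left
  have htJ : Ideal.span {t} * Ideal.span {t} ≤ Ideal.span {t} * m :=
    Ideal.mul_mono_right ((Ideal.span_singleton_le_iff_mem m).2 htm)
  have hmem : ∀ (i : Fin 3) (l : Fin 10), tv a i l ∈ Ideal.span {t} := by
    intro i l
    rw [tv]
    split_ifs with h
    · exact Ideal.zero_mem _
    · have h1 := ha.tangent (i, ⟨(l : ℕ) - 3, by omega⟩)
      have h3 := Ideal.add_mem _ (hJt h1) (Ideal.mul_mem_right (algebraMap K O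
        (τ (i, ⟨(l : ℕ) - 3, by omega⟩))) _ (Ideal.mem_span_singleton_self t))
      rwa [sub_add_cancel] at h3
  have hcong : ∀ (i : Fin 3) (l : Fin 10), (tv a i - t • tv (fun q => algebraMap K O (τ q)) i) l
      ∈ Ideal.span {t} * m := by
    intro i l
    rw [Pi.sub_apply, Pi.smul_apply, smul_eq_mul, tv, tv]
    split_ifs with h
    · simp
    · exact ha.tangent _
  have e : ∀ i : Fin 3, row a i = bv O (c3 i) + tv a i := fun i => rfl
  have h0 := ha.plane i j k
  rw [e i, e j, e k] at h0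
  simp only [tri_add_left, tri_add_mid, tri_add_right] at h0
  rw [tri_bv, hD.zero', map_zero] at h0
  -- quadratic terms
  have q1 : tri D (tv a i) (tv a j) (bv O (c3 k)) ∈ Ideal.span {t} * m :=
    htJ (tri_mem_mul_left_mid D _ _ (hmem i) (hmem j) _)
  have q2 : tri D (tv a i) (bv O (c3 j)) (tv a k) ∈ Ideal.span {t} * m := by
    rw [tri_swap23 hD.swap23]; exact htJ (tri_mem_mul_left_mid D _ _ (hmem i) (hmem k) _)
  have q3 : tri D (bv O (c3 i)) (tv a j) (tv a k) ∈ Ideal.span {t} * m := by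
    rw [tri_swap12 hD.swap12, tri_swap23 hD.swap23]
    exact htJ (tri_mem_mul_left_mid D _ _ (hmem j) (hmem k) _)
  have q4 : tri D (tv a i) (tv a j) (tv a k) ∈ Ideal.span {t} * m :=
    htJ (tri_mem_mul_left_mid D _ _ (hmem i) (hmem j) _)
  -- linear terms
  have tvm : ∀ (i : Fin 3) , tv (fun q => algebraMap K O (τ q)) i =
      fun l => algebraMap K O (tv τ i l) := by
    intro i
    funext l
    rw [tv, tv]
    split_ifs <;> simp
  have bvm : ∀ (l : Fin 10), bv O l = fun s => algebraMap K O (bv K l s) := by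
    intro l
    funext s
    rw [bv_apply, bv_apply]
    split_ifs <;> simp
  have tm : ∀ x y z : Fin 10 → K, tri D (fun l => algebraMap K O (x l))
      (fun l => algebraMap K O (y l)) (fun l => algebraMap K O (z l)) =
      algebraMap K O (tri D x y z) := by
    intro x y z
    have := tri_map D (Algebra.ofId K O) x y z
    exact this.symm
  have l1 : tri D (tv a i) (bv O (c3 j)) (bv O (c3 k)) -
      t * algebraMap K O (tri D (tv τ i) (bv K (c3 j)) (bv K (c3 k))) ∈ Ideal.span {t} * m := by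
    rw [← tm, ← tri_smul_left, ← bvm, ← bvm, ← tvm, ← tri_sub_left]
    exact tri_mem_left D _ (hcong i) _ _
  have l2 : tri D (bv O (c3 i)) (tv a j) (bv O (c3 k)) -
      t * algebraMap K O (tri D (bv K (c3 i)) (tv τ j) (bv K (c3 k))) ∈ Ideal.span {t} * m := by
    rw [← tm, ← tri_smul_mid, ← bvm, ← bvm, ← tvm, ← tri_sub_mid]
    exact tri_mem_mid D _ _ (hcong j) _
  have l3 : tri D (bv O (c3 i)) (bv O (c3 j)) (tv a k) -
      t * algebraMap K O (tri D (bv K (c3 i)) (bv K (c3 j)) (tv τ k)) ∈ Ideal.span {t} * m := by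
    rw [← tm, ← tri_smul_right, ← bvm, ← bvm, ← tvm, ← tri_sub_right]
    exact tri_mem_right D _ _ _ (hcong k)
  have hsum : t * algebraMap K O (tanVal D τ i j k) ∈ Ideal.span {t} * m := by
    have h5 := Ideal.add_mem _ (Ideal.add_mem _ (Ideal.add_mem _ (Ideal.add_mem _
      (Ideal.add_mem _ (Ideal.add_mem _ l1 l2) l3) q1) q2) q3) q4
    have h6 : t * algebraMap K O (tanVal D τ i j k) = -((tri D (tv a i) (bv O (c3 j))
      (bv O (c3 k)) - t * algebraMap K O (tri D (tv τ i) (bv K (c3 j)) (bv K (c3 k))) +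
      (tri D (bv O (c3 i)) (tv a j) (bv O (c3 k)) -
      t * algebraMap K O (tri D (bv K (c3 i)) (tv τ j) (bv K (c3 k)))) +
      (tri D (bv O (c3 i)) (bv O (c3 j)) (tv a k) -
      t * algebraMap K O (tri D (bv K (c3 i)) (bv K (c3 j)) (tv τ k))) +
      tri D (tv a i) (tv a j) (bv O (c3 k)) + tri D (tv a i) (bv O (c3 j)) (tv a k) +
      tri D (bv O (c3 i)) (tv a j) (tv a k) + tri D (tv a i) (tv a j) (tv a k))) := by
      rw [tanVal, map_add, map_add]
      linear_combination h0
    rw [h6]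
    exact neg_mem h5
  rw [Ideal.mem_span_singleton_mul] at hsum
  obtain ⟨c, hcm, hc⟩ := hsum
  have h7 : c = algebraMap K O (tanVal D τ i j k) := mul_left_cancel₀ ht0 hc
  by_contra hne
  apply h1
  have h8 : IsUnit (algebraMap K O (tanVal D τ i j k)) := (isUnit_iff_ne_zero.2 hne).map _
  rw [← h7] at h8
  exact (Ideal.eq_top_iff_one m).1 (Ideal.eq_top_of_isUnit_mem m hcm h8)

/-- The case of a monomial. -/
theorem arc_monomialM {ι K O : Type*} [Field K] [CommRing O] [Algebra K O] (t : O) (m : Ideal O)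
    (htm : t ∈ m) (τ : ι → K) (c e : ι → O) (he : ∀ q, e q ∈ m)
    (hc : ∀ q, c q = algebraMap K O (τ q) + e q) (d : ℕ) (s : ι →₀ ℕ) (hs : d ≤ s.degree) :
    (∏ i ∈ s.support, (t * c i) ^ s i) -
      (if s.degree = d then t ^ d * algebraMap K O (∏ i ∈ s.support, τ i ^ s i) else 0) ∈
      Ideal.span {t ^ d} * m := by
  have h1 : (∏ i ∈ s.support, (t * c i) ^ s i) = t ^ s.degree * ∏ i ∈ s.support, c i ^ s i := by
    simp only [mul_pow]
    rw [Finset.prod_mul_distrib, Finset.prod_pow_eq_pow_sum]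
    rfl
  rw [h1]
  split_ifs with h
  · rw [h, ← mul_sub]
    refine Ideal.mul_mem_mul (Ideal.mem_span_singleton_self _) ?_
    rw [← Ideal.Quotient.eq]
    simp only [map_prod, map_pow]
    refine Finset.prod_congr rfl fun i _ => ?_
    congr 1
    rw [Ideal.Quotient.eq, hc i, add_sub_cancel_left]
    exact he i
  · rw [sub_zero]
    obtain ⟨r, hr⟩ : ∃ r, s.degree = d + (r + 1) := ⟨s.degree - d - 1, by omega⟩
    rw [hr, pow_add, mul_assoc]
    refine Ideal.mul_mem_mul (Ideal.mem_span_singleton_self _) ?_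
    rw [pow_succ, mul_comm (t ^ r) t, mul_assoc]
    exact Ideal.mul_mem_right _ _ htm

theorem arc_evalM {ι K O : Type*} [Field K] [CommRing O] [Algebra K O] (t : O) (m : Ideal O)
    (htm : t ∈ m) (τ : ι → K) (a : ι → O)
    (ha : ∀ q, a q - t * algebraMap K O (τ q) ∈ Ideal.span {t} * m) (d : ℕ)
    (g : MvPolynomial ι K) (hg : g ∈ idealOfVars ι K ^ d) :
    aeval a g - t ^ d * algebraMap K O (eval τ (homogeneousComponent d g)) ∈
      Ideal.span {t ^ d} * m := by
  classical
  have hb : ∀ q, ∃ b : O, b ∈ m ∧ a q = t * (algebraMap K O (τ q) + b) := by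
    intro q
    obtain ⟨b, hbm, hb⟩ := Ideal.mem_span_singleton_mul.1 (ha q)
    exact ⟨b, hbm, by linear_combination -hb⟩
  choose b hbm hb using hb
  have hdeg : ∀ s ∈ g.support, d ≤ s.degree := by
    intro s hs
    exact (mem_pow_idealOfVars_iff d g).1 hg s hs
  have e1 : aeval a g = ∑ s ∈ g.support, algebraMap K O (g.coeff s) *
      ∏ i ∈ s.support, (t * (algebraMap K O (τ i) + b i)) ^ s i := by
    rw [aeval_def, eval₂_eq]
    refine Finset.sum_congr rfl fun s _ => ?_
    congr 1
    refine Finset.prod_congr rfl fun i _ => ?_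
    rw [← hb i]
  have e2 : t ^ d * algebraMap K O (eval τ (homogeneousComponent d g)) =
      ∑ s ∈ g.support, algebraMap K O (g.coeff s) *
        (if s.degree = d then t ^ d * algebraMap K O (∏ i ∈ s.support, τ i ^ s i) else 0) := by
    rw [homogeneousComponent_apply, map_sum, map_sum, Finset.mul_sum, Finset.sum_filter]
    refine Finset.sum_congr rfl fun s _ => ?_
    split_ifs with h
    · rw [eval_monomial, map_mul]
      simp only [Finsupp.prod]
      ring
    · rw [mul_zero]
  rw [e1, e2, ← Finset.sum_sub_distrib]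
  refine Ideal.sum_mem _ fun s hs => ?_
  rw [← mul_sub]
  exact Ideal.mul_mem_left _ _
    (arc_monomialM t m htm τ _ b hbm (fun _ => rfl) d s (hdeg s hs))

end Pool.Agent.Helper26.CQ
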