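import Pool.Agent.Helper76.CQ.Defs

/-!
# Project CQ, piece 7b: a polynomial whose Newton polygon has one slope is irreducible
-/

namespace Pool.Agent.Helper26.CQ

open Pool.Agent.Helper76.CQ

/-- The Dumas criterion, from the statement on the norms of the roots. -/
theorem slope_irreducible_of {s : ℕ} (hs : ¬ 11 ∣ s) {χ : Polynomial ℚ_[2]} (hχ : Slope s χ)
    (hroot : ∀ z : PadicAlgCl 2, Polynomial.aeval z χ = 0 → ‖z‖ ^ 11 = (1 / 2 : ℝ) ^ s) :
    Irreducible χ := by
  have hχ1 : χ ≠ 1 := by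
    intro h
    have := hχ.deg
    rw [h, Polynomial.natDegree_one] at this
    omega
  rw [hχ.monic.irreducible_iff_lt_natDegree_lt hχ1]
  intro g hg hdeg hdvd
  rw [hχ.deg, Finset.mem_Ioc] at hdeg
  set d := g.natDegree with hd
  -- the roots of `g` in the algebraic closure
  let G : Polynomial (PadicAlgCl 2) := g.map (algebraMap ℚ_[2] (PadicAlgCl 2))
  have hGm : G.Monic := hg.map _
  have hGd : G.natDegree = d := hg.natDegree_map _
  have hGs : G.Splits := IsAlgClosed.splits G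
  have hc := hGs.coeff_zero_eq_prod_roots_of_monic hGm
  have hcard : G.roots.card = d := by
    rw [← hGs.natDegree_eq_card_roots, hGd]
  have hrt : ∀ z ∈ G.roots, ‖z‖ ^ 11 = (1 / 2 : ℝ) ^ s := by
    intro z hz
    apply hroot
    have h1 : Polynomial.aeval z g = 0 := by
      have h2 := Polynomial.isRoot_of_mem_roots hz
      rw [Polynomial.IsRoot, Polynomial.eval_map] at h2
      exact h2
    obtain ⟨q, rfl⟩ := hdvd
    rw [map_mul, h1, zero_mul]
  have hprod : ∀ M : Multiset (PadicAlgCl 2), (∀ z ∈ M, ‖z‖ ^ 11 = (1 / 2 : ℝ) ^ s) →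
      ‖M.prod‖ ^ 11 = ((1 / 2 : ℝ) ^ s) ^ M.card := by
    intro M
    induction M using Multiset.induction with
    | empty => intro _; simp
    | cons a M ih =>
      intro h
      rw [Multiset.prod_cons, norm_mul, mul_pow, h a (Multiset.mem_cons_self a M),
        ih (fun z hz => h z (Multiset.mem_cons_of_mem hz)), Multiset.card_cons, pow_succ]
      ring
  have h1 : ‖G.coeff 0‖ ^ 11 = ((1 / 2 : ℝ) ^ s) ^ d := by
    rw [hc, norm_mul, norm_pow, norm_neg, norm_one, one_pow, one_mul, hprod _ hrt, hcard]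
  have h2 : ‖G.coeff 0‖ = ‖g.coeff 0‖ := by
    rw [Polynomial.coeff_map]
    exact PadicAlgCl.norm_extends 2 (g.coeff 0)
  rw [h2] at h1
  have hg0 : g.coeff 0 ≠ 0 := by
    intro h
    rw [h, norm_zero, zero_pow (by norm_num)] at h1
    have : (0 : ℝ) < ((1 / 2 : ℝ) ^ s) ^ d := by positivity
    linarith
  rw [Padic.norm_eq_zpow_neg_valuation hg0] at h1
  set v := (g.coeff 0).valuation with hv
  have h3 : ((2 : ℕ) : ℝ) = 2 := by norm_num
  rw [h3, ← zpow_natCast, ← zpow_mul, ← pow_mul, one_div, inv_pow, ← zpow_natCast, ← zpow_neg]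
    at h1
  have h4 : -v * ((11 : ℕ) : ℤ) = -((s * d : ℕ) : ℤ) :=
    zpow_right_injective₀ (by norm_num : (0 : ℝ) < 2) (by norm_num) h1
  have h5 : (11 : ℤ) ∣ ((s * d : ℕ) : ℤ) := ⟨v, by push_cast at h4 ⊢; linarith⟩
  have h6 : 11 ∣ s * d := by exact_mod_cast h5
  rcases (Nat.Prime.dvd_mul (by norm_num)).1 h6 with h7 | h7
  · exact hs h7
  · have := Nat.le_of_dvd hdeg.1 h7
    omega

/-- CQ-7b, with `slope_root` (CQ-7a) as a hypothesis. -/
theorem slope_irreducible
    (slope_root : ∀ {s : ℕ} {χ : Polynomial ℚ_[2]}, Slope s χ → ∀ z : PadicAlgCl 2,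
      Polynomial.aeval z χ = 0 → ‖z‖ ^ 11 = (1 / 2 : ℝ) ^ s)
    {s : ℕ} (hs : ¬ 11 ∣ s) {χ : Polynomial ℚ_[2]} (hχ : Slope s χ) :
    Irreducible χ :=
  slope_irreducible_of hs hχ (slope_root hχ)

end Pool.Agent.Helper26.CQ
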